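import Mathlib
import Pool.Agent.Helper27_UBT.Stmts

/-! # BC1: descent of principality along a field extension -/

open Polynomial H58Q

namespace H76UBT

open UBT

section L

variable {F F' : Type*} [Field F] [Field F'] [Algebra F F'] (lam : F' →ₗ[F] F)

/-- a linear functional applied to the coefficients -/
noncomputable def Lp (p : F'[X]) : F[X] := p.sum fun i c => monomial i (lam c)

theorem coeff_Lp (p : F'[X]) (n : ℕ) : (Lp lam p).coeff n = lam (p.coeff n) := by
  unfold Lp
  rw [Polynomial.sum_def, finsetSum_coeff]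
  simp only [coeff_monomial]
  rw [Finset.sum_ite_eq']
  split_ifs with h
  · rfl
  · rw [notMem_support_iff.1 h, map_zero]

theorem Lp_add (p q : F'[X]) : Lp lam (p + q) = Lp lam p + Lp lam q := by
  ext n
  rw [coeff_add, coeff_Lp, coeff_Lp, coeff_Lp, coeff_add, map_add]

theorem Lp_zero : Lp lam 0 = 0 := by
  ext n
  rw [coeff_Lp, coeff_zero, map_zero, coeff_zero]

theorem Lp_mul (p : F[X]) (q : F'[X]) :
    Lp lam (p.map (algebraMap F F') * q) = p * Lp lam q := by
  ext n
  rw [coeff_Lp, coeff_mul, coeff_mul, map_sum]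
  refine Finset.sum_congr rfl fun x _ => ?_
  rw [coeff_map, coeff_Lp, ← Algebra.smul_def, map_smul, smul_eq_mul]

theorem natDegree_Lp (p : F'[X]) : (Lp lam p).natDegree ≤ p.natDegree := by
  rw [natDegree_le_iff_coeff_eq_zero]
  intro n hn
  rw [coeff_Lp, coeff_eq_zero_of_natDegree_lt hn, map_zero]

variable {f : F[X]}

/-- the same on the coordinate rings -/
noncomputable def LQ (z : Q F' (f.map (algebraMap F F'))) : Q F f := ⟨Lp lam z.re, Lp lam z.im⟩

theorem LQ_add (z w : Q F' (f.map (algebraMap F F'))) : LQ lam (z + w) = LQ lam z + LQ lam w := by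
  apply QuadraticAlgebra.ext
  · exact Lp_add lam _ _
  · exact Lp_add lam _ _

theorem LQ_zero : LQ lam (0 : Q F' (f.map (algebraMap F F'))) = 0 := by
  apply QuadraticAlgebra.ext
  · exact Lp_zero lam
  · exact Lp_zero lam

theorem LQ_mul (r : Q F f) (m : Q F' (f.map (algebraMap F F'))) :
    LQ lam (Q.map (algebraMap F F') f r * m) = r * LQ lam m := by
  apply QuadraticAlgebra.ext
  · show Lp lam (Q.map (algebraMap F F') f r * m).re = (r * LQ lam m).re
    rw [QuadraticAlgebra.re_mul, QuadraticAlgebra.re_mul, Q.map_re, Q.map_im, Lp_add, Lp_mul,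
      mul_assoc, mul_assoc, Lp_mul, Lp_mul]
    rfl
  · show Lp lam (Q.map (algebraMap F F') f r * m).im = (r * LQ lam m).im
    rw [QuadraticAlgebra.im_mul, QuadraticAlgebra.im_mul, Q.map_re, Q.map_im, zero_mul, zero_mul,
      zero_mul, zero_mul, add_zero, add_zero, Lp_add, Lp_mul, Lp_mul]
    rfl

theorem LQ_mem (I : Ideal (Q F f)) (x : Q F' (f.map (algebraMap F F')))
    (hx : x ∈ I.map (Q.map (algebraMap F F') f)) : LQ lam x ∈ I := by
  have key : ∀ m : Q F' (f.map (algebraMap F F')), LQ lam (m * x) ∈ I := by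
    refine Submodule.span_induction (p := fun x _ => ∀ m : Q F' (f.map (algebraMap F F')),
      LQ lam (m * x) ∈ I) ?_ ?_ ?_ ?_ hx
    · rintro _ ⟨i, hi, rfl⟩ m
      rw [mul_comm, LQ_mul]
      exact I.mul_mem_right _ hi
    · intro m
      rw [mul_zero, LQ_zero]
      exact I.zero_mem
    · intro x y _ _ hx hy m
      rw [mul_add, LQ_add]
      exact I.add_mem (hx m) (hy m)
    · intro a x _ hx m
      rw [smul_eq_mul, ← mul_assoc]
      exact hx _
  have := key 1
  rwa [one_mul] at this

end L

section fin

variable {F : Type*} [Field F] {f : F[X]}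

theorem algNorm_eq (z : Q F f) : Algebra.norm F[X] z = z.norm := by
  rw [← QuadraticAlgebra.det_toLinearMap_eq_norm, Algebra.norm_apply]
  rfl

theorem finrank_span {g : ℕ} (hd : f.natDegree = 2 * g + 1) {z : Q F f} (hz : z ≠ 0) :
    Module.finrank F (Q F f ⧸ Ideal.span {z}) = z.norm.natDegree := by
  have := isDomain hd
  rw [← algNorm_eq]
  exact finrank_quotient_span_eq_natDegree_norm (QuadraticAlgebra.basis f 0) hz

theorem finite_span {g : ℕ} (hd : f.natDegree = 2 * g + 1) {z : Q F f} (hz : z ≠ 0) :
    Module.Finite F (Q F f ⧸ Ideal.span {z}) := by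
  have := isDomain hd
  by_cases h : z.norm.natDegree = 0
  · have hu : IsUnit z := by
      rw [QuadraticAlgebra.isUnit_iff_norm_isUnit, Polynomial.isUnit_iff_degree_eq_zero,
        Polynomial.degree_eq_natDegree (norm_ne_zero hd hz), h]
      rfl
    have hs : Subsingleton (Q F f ⧸ Ideal.span {z}) := by
      rw [Ideal.Quotient.subsingleton_iff, Ideal.span_singleton_eq_top]
      exact hu
    infer_instance
  · apply Module.finite_of_finrank_pos
    rw [finrank_span hd hz]
    omega

end fin

section main

variable {F F' : Type*} [Field F] [Field F'] [Algebra F F'] {f : F[X]}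

/-- the colength does not grow under base change -/
theorem finrank_le (I : Ideal (Q F f)) [Module.Finite F (Q F f ⧸ I)] :
    Module.finrank F' (Q F' (f.map (algebraMap F F')) ⧸ I.map (Q.map (algebraMap F F') f)) ≤
      Module.finrank F (Q F f ⧸ I) := by
  set φ := Q.map (algebraMap F F') f with hφ
  set I' := I.map φ with hI'
  let b := Module.finBasis F (Q F f ⧸ I)
  choose r hr using fun i => Ideal.Quotient.mk_surjective (b i)
  let r' : Fin (Module.finrank F (Q F f ⧸ I)) → Q F' (f.map (algebraMap F F')) ⧸ I' :=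
    fun i => Ideal.Quotient.mk I' (φ (r i))
  let T : Submodule F' (Q F' (f.map (algebraMap F F')) ⧸ I') := Submodule.span F' (Set.range r')
  have hsm : ∀ (a : F) (q : Q F f), φ (a • q) = algebraMap F F' a • φ q := by
    intro a q
    apply QuadraticAlgebra.ext
    · show (a • q.re).map _ = algebraMap F F' a • q.re.map _
      rw [Polynomial.map_smul]
    · show (a • q.im).map _ = algebraMap F F' a • q.im.map _
      rw [Polynomial.map_smul]
  -- the images of the elements of `Q F f`
  have h1 : ∀ q : Q F f, Ideal.Quotient.mk I' (φ q) ∈ T := by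
    intro q
    have hq : q - ∑ i, b.repr (Ideal.Quotient.mk I q) i • r i ∈ I := by
      rw [← Ideal.Quotient.eq, map_sum]
      conv_lhs => rw [← b.sum_repr (Ideal.Quotient.mk I q)]
      refine Finset.sum_congr rfl fun i _ => ?_
      rw [← hr i]
      rfl
    have h2 : φ q - ∑ i, algebraMap F F' (b.repr (Ideal.Quotient.mk I q) i) • φ (r i) ∈ I' := by
      have := Ideal.mem_map_of_mem φ hq
      rw [map_sub, map_sum] at this
      simpa only [hsm] using this
    rw [← Ideal.Quotient.eq] at h2
    rw [h2, map_sum]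
    refine Submodule.sum_mem _ fun i _ => ?_
    show algebraMap F F' (b.repr (Ideal.Quotient.mk I q) i) • r' i ∈ T
    exact Submodule.smul_mem _ _ (Submodule.subset_span ⟨i, rfl⟩)
  have h3 : ∀ p : F'[X], Ideal.Quotient.mk I' (⟨p, 0⟩ : Q F' (f.map (algebraMap F F'))) ∈ T := by
    intro p
    induction p using Polynomial.induction_on' with
    | add p q hp hq =>
      have : (⟨p + q, 0⟩ : Q F' (f.map (algebraMap F F'))) = ⟨p, 0⟩ + ⟨q, 0⟩ := by
        apply QuadraticAlgebra.ext
        · rfl
        · exact (add_zero 0).symm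
      rw [this, map_add]
      exact T.add_mem hp hq
    | monomial n c =>
      have : (⟨monomial n c, 0⟩ : Q F' (f.map (algebraMap F F'))) = c • φ ⟨X ^ n, 0⟩ := by
        apply QuadraticAlgebra.ext
        · show monomial n c = c • (X ^ n : F[X]).map _
          rw [Polynomial.map_pow, Polynomial.map_X, smul_X_eq_monomial]
        · show (0 : F'[X]) = c • (0 : F[X]).map _
          rw [Polynomial.map_zero, smul_zero]
      rw [this]
      exact T.smul_mem c (h1 _)
  have h4 : ∀ p : F'[X], Ideal.Quotient.mk I' (⟨0, p⟩ : Q F' (f.map (algebraMap F F'))) ∈ T := by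
    intro p
    induction p using Polynomial.induction_on' with
    | add p q hp hq =>
      have : (⟨0, p + q⟩ : Q F' (f.map (algebraMap F F'))) = ⟨0, p⟩ + ⟨0, q⟩ := by
        apply QuadraticAlgebra.ext
        · exact (add_zero 0).symm
        · rfl
      rw [this, map_add]
      exact T.add_mem hp hq
    | monomial n c =>
      have : (⟨0, monomial n c⟩ : Q F' (f.map (algebraMap F F'))) = c • φ ⟨0, X ^ n⟩ := by
        apply QuadraticAlgebra.ext
        · show (0 : F'[X]) = c • (0 : F[X]).map _
          rw [Polynomial.map_zero, smul_zero]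
        · show monomial n c = c • (X ^ n : F[X]).map _
          rw [Polynomial.map_pow, Polynomial.map_X, smul_X_eq_monomial]
      rw [this]
      exact T.smul_mem c (h1 _)
  have htop : T = ⊤ := by
    rw [Submodule.eq_top_iff']
    intro x
    obtain ⟨x, rfl⟩ := Ideal.Quotient.mk_surjective x
    have : x = ⟨x.re, 0⟩ + ⟨0, x.im⟩ := by
      apply QuadraticAlgebra.ext
      · exact (add_zero _).symm
      · exact (zero_add _).symm
    rw [this, map_add]
    exact T.add_mem (h3 _) (h4 _)
  have h5 : (Set.range r').finrank F' ≤ Fintype.card (Fin (Module.finrank F (Q F f ⧸ I))) :=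
    finrank_range_le_card r'
  rw [Set.finrank, show Submodule.span F' (Set.range r') = ⊤ from htop, finrank_top,
    Fintype.card_fin] at h5
  exact h5

end main

theorem bc1 : BC1Stmt := by
  intro F F' _ _ φ f hodd I hI hprin
  obtain ⟨g, hd⟩ := hodd
  let _ := φ.toAlgebra
  have hφ : φ = algebraMap F F' := rfl
  rw [hφ] at hprin
  have hd' : (f.map (algebraMap F F')).natDegree = 2 * g + 1 := by rw [natDegree_map, hd]
  obtain ⟨w, hw⟩ := hprin.principal
  have hw' : I.map (Q.map (algebraMap F F') f) = Ideal.span {w} := hw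
  have hinj := Q.map_injective (algebraMap F F') f (algebraMap F F').injective
  have hw0 : w ≠ 0 := by
    rintro rfl
    apply hI
    rw [Ideal.span_singleton_zero, Ideal.map_eq_bot_iff_of_injective hinj] at hw'
    exact hw'
  -- a functional
  obtain ⟨lam, hlam⟩ : ∃ lam : F' →ₗ[F] F, LQ lam w ≠ 0 := by
    have hc : (w.re ≠ 0 ∨ w.im ≠ 0) := by
      by_contra hcon
      push Not at hcon
      exact hw0 (QuadraticAlgebra.ext hcon.1 hcon.2)
    rcases hc with hc | hc
    · have h1 : w.re.leadingCoeff ≠ 0 := leadingCoeff_ne_zero.2 hc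
      obtain ⟨lam, hl⟩ : ∃ lam : F' →ₗ[F] F, lam w.re.leadingCoeff ≠ 0 := by
        by_contra hcon
        push Not at hcon
        exact h1 ((Module.forall_dual_apply_eq_zero_iff F _).1 hcon)
      refine ⟨lam, fun h => hl ?_⟩
      have h2 := congrArg (fun z : Q F f => z.re.coeff w.re.natDegree) h
      have h3 : (Lp lam w.re).coeff w.re.natDegree = (0 : F[X]).coeff w.re.natDegree := h2
      rwa [coeff_Lp, coeff_zero] at h3
    · have h1 : w.im.leadingCoeff ≠ 0 := leadingCoeff_ne_zero.2 hc
      obtain ⟨lam, hl⟩ : ∃ lam : F' →ₗ[F] F, lam w.im.leadingCoeff ≠ 0 := by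
        by_contra hcon
        push Not at hcon
        exact h1 ((Module.forall_dual_apply_eq_zero_iff F _).1 hcon)
      refine ⟨lam, fun h => hl ?_⟩
      have h2 := congrArg (fun z : Q F f => z.im.coeff w.im.natDegree) h
      have h3 : (Lp lam w.im).coeff w.im.natDegree = (0 : F[X]).coeff w.im.natDegree := h2
      rwa [coeff_Lp, coeff_zero] at h3
  have hmem : LQ lam w ∈ I := LQ_mem lam I w (by rw [hw']; exact Ideal.mem_span_singleton_self w)
  have hle : Ideal.span {LQ lam w} ≤ I := (Ideal.span_singleton_le_iff_mem I).2 hmem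
  have hdeg : (LQ lam w).norm.natDegree ≤ w.norm.natDegree := by
    have h1 := (natDegree_norm_le_iff hd' w w.norm.natDegree).1 le_rfl
    rw [natDegree_norm_le_iff hd]
    have h2 : (LQ lam w).re.natDegree ≤ w.re.natDegree := natDegree_Lp lam _
    have h3 : (LQ lam w).im.natDegree ≤ w.im.natDegree := natDegree_Lp lam _
    refine ⟨by omega, ?_⟩
    rcases h1.2 with h | h
    · left
      show Lp lam w.im = 0
      rw [h, Lp_zero]
    · right
      omega
  have hfin := finite_span hd hlam
  let ψ : (Q F f ⧸ Ideal.span {LQ lam w}) →ₐ[F] (Q F f ⧸ I) := Ideal.Quotient.factorₐ F hle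
  have hψ : ∀ x : Q F f, ψ (Ideal.Quotient.mk _ x) = Ideal.Quotient.mk I x := fun x => rfl
  have hsurj : Function.Surjective ψ.toLinearMap := by
    intro y
    obtain ⟨x, rfl⟩ := Ideal.Quotient.mk_surjective y
    exact ⟨Ideal.Quotient.mk _ x, hψ x⟩
  have hfin' : Module.Finite F (Q F f ⧸ I) := Module.Finite.of_surjective ψ.toLinearMap hsurj
  have h1 := finrank_le (F' := F') I
  rw [hw', finrank_span hd' hw0] at h1
  have h2 := finrank_span hd hlam
  -- equality
  have h3 : Module.finrank F (Q F f ⧸ I) ≤ Module.finrank F (Q F f ⧸ Ideal.span {LQ lam w}) :=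
    LinearMap.finrank_le_finrank_of_surjective hsurj
  have h4 : Module.finrank F (Q F f ⧸ Ideal.span {LQ lam w}) = Module.finrank F (Q F f ⧸ I) := by
    omega
  have hinj' : Function.Injective ψ.toLinearMap :=
    (LinearMap.injective_iff_surjective_of_finrank_eq_finrank h4).2 hsurj
  have heq : Ideal.span {LQ lam w} = I := by
    refine le_antisymm hle fun x hx => ?_
    rw [← Ideal.Quotient.eq_zero_iff_mem]
    apply hinj'
    rw [map_zero]
    show Ideal.Quotient.mk I x = 0
    exact Ideal.Quotient.eq_zero_iff_mem.2 hx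
  exact ⟨LQ lam w, heq.symm⟩

end H76UBT
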