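import Mathlib
import Pool.Agent.Helper27_UBT.Stmts

/-! # TRANS: valuations of differences of conjugates at a nonsplit prime -/

open NumberField IsDedekindDomain
open scoped Pointwise nonZeroDivisors

namespace H76UBT

open UBT

/-- an element of the fraction field has a representation with numerator or denominator outside of
a given proper ideal -/
theorem exists_frac {R N : Type*} [CommRing R] [IsDedekindDomain R] [Field N]
    [Algebra R N] [IsFractionRing R N] (W : Ideal R) (hW : W ≠ ⊤) (x : N) :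
    ∃ a b : R, b ≠ 0 ∧ (a ∉ W ∨ b ∉ W) ∧ x * algebraMap R N b = algebraMap R N a := by
  obtain ⟨a, b, hb, rfl⟩ := IsFractionRing.div_surjective (A := R) x
  have hb0 : b ≠ 0 := nonZeroDivisors.ne_zero hb
  have hbN : algebraMap R N b ≠ 0 := fun h => hb0 ((map_eq_zero_iff _
    (IsFractionRing.injective R N)).1 h)
  set I : FractionalIdeal R⁰ N := ((Ideal.span {a, b} : Ideal R) : FractionalIdeal R⁰ N) with hI
  have hI0 : I ≠ 0 := by
    rw [hI]
    intro h
    rw [FractionalIdeal.coeIdeal_eq_zero] at h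
    have : b ∈ (⊥ : Ideal R) := h ▸ Ideal.subset_span (by simp)
    exact hb0 (by simpa using this)
  have hinv : I⁻¹ * I = 1 := by rw [mul_comm]; exact mul_inv_cancel₀ hI0
  have haI : algebraMap R N a ∈ I :=
    (FractionalIdeal.mem_coeIdeal R⁰).2 ⟨a, Ideal.subset_span (by simp), rfl⟩
  have hbI : algebraMap R N b ∈ I :=
    (FractionalIdeal.mem_coeIdeal R⁰).2 ⟨b, Ideal.subset_span (by simp), rfl⟩
  have hint : ∀ c ∈ I⁻¹, ∀ i ∈ I, ∃ r : R, algebraMap R N r = c * i := by
    intro c hc i hi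
    have h1 : c * i ∈ I⁻¹ * I := FractionalIdeal.mul_mem_mul hc hi
    rw [hinv] at h1
    obtain ⟨r, hr⟩ := (FractionalIdeal.mem_one_iff R⁰).1 h1
    exact ⟨r, hr⟩
  by_contra hcon
  push Not at hcon
  have hle : I⁻¹ * I ≤ ((W : Ideal R) : FractionalIdeal R⁰ N) := by
    rw [FractionalIdeal.mul_le]
    intro c hc i hi
    obtain ⟨i', hi', rfl⟩ := (FractionalIdeal.mem_coeIdeal R⁰).1 hi
    obtain ⟨s, t, rfl⟩ := Ideal.mem_span_pair.1 hi'
    obtain ⟨a', ha'⟩ := hint c hc _ haI
    obtain ⟨b', hb'⟩ := hint c hc _ hbI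
    have hb'0 : c ≠ 0 → b' ≠ 0 := by
      rintro hc0 rfl
      rw [map_zero] at hb'
      exact (mul_ne_zero hc0 hbN) hb'.symm
    by_cases hc0 : c = 0
    · rw [hc0, zero_mul]
      exact (FractionalIdeal.mem_coeIdeal R⁰).2 ⟨0, W.zero_mem, map_zero _⟩
    have hmem : a' ∈ W ∧ b' ∈ W := by
      have := hcon a' b' (hb'0 hc0)
      by_contra hne
      rw [not_and_or] at hne
      apply this hne
      rw [ha', hb']
      field_simp
    refine (FractionalIdeal.mem_coeIdeal R⁰).2 ⟨s * a' + t * b',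
      W.add_mem (W.mul_mem_left _ hmem.1) (W.mul_mem_left _ hmem.2), ?_⟩
    rw [map_add, map_mul, map_mul, ha', hb', map_add, map_mul, map_mul]
    ring
  rw [hinv] at hle
  apply hW
  rw [Ideal.eq_top_iff_one]
  have h1 : (1 : N) ∈ ((W : Ideal R) : FractionalIdeal R⁰ N) := hle (FractionalIdeal.one_mem_one R⁰)
  obtain ⟨r, hr, hr1⟩ := (FractionalIdeal.mem_coeIdeal R⁰).1 h1
  have : r = 1 := IsFractionRing.injective R N (by rw [hr1, map_one])
  rwa [← this]

/-- a valuation is invariant under the decomposition group -/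
theorem val_smul {R N Γ G : Type*} [CommRing R] [IsDedekindDomain R] [Field N]
    [Algebra R N] [IsFractionRing R N] [LinearOrderedCommGroupWithZero Γ] (v : Valuation N Γ)
    (W : Ideal R) (hW : W ≠ ⊤) (hv1 : ∀ a : R, v (algebraMap R N a) ≤ 1)
    (hv2 : ∀ a : R, v (algebraMap R N a) < 1 ↔ a ∈ W) [Group G] [Finite G]
    [MulSemiringAction G R] [MulSemiringAction G N]
    (hsm : ∀ (g : G) (a : R), algebraMap R N (g • a) = g • algebraMap R N a) (g : G)
    (hg : ∀ a, g • a ∈ W ↔ a ∈ W) (x : N) : v (g • x) = v x := by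
  have hlt : ∀ y : N, v y < 1 → v (g • y) < 1 := by
    intro y hy
    obtain ⟨a, b, hb0, hab, hyb⟩ := exists_frac W hW y
    have hbN : algebraMap R N b ≠ 0 := fun h => hb0 ((map_eq_zero_iff _
      (IsFractionRing.injective R N)).1 h)
    have h1 : v y * v (algebraMap R N b) = v (algebraMap R N a) := by rw [← map_mul, hyb]
    have ha : a ∈ W := by
      rw [← hv2, ← h1]
      calc v y * v (algebraMap R N b) ≤ v y * 1 := by gcongr; exact hv1 b
        _ < 1 := by rwa [mul_one]
    have hbW : b ∉ W := hab.resolve_left (fun h => h ha)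
    have h2 : v (algebraMap R N (g • b)) = 1 :=
      le_antisymm (hv1 _) (not_lt.1 (fun h => hbW ((hg b).1 ((hv2 _).1 h))))
    have h3 : v (algebraMap R N (g • a)) < 1 := (hv2 _).2 ((hg a).2 ha)
    have h4 : (g • y) * algebraMap R N (g • b) = algebraMap R N (g • a) := by
      rw [hsm, hsm, ← hyb, smul_mul']
    rwa [← h4, map_mul, h2, mul_one] at h3
  have hiter : ∀ (n : ℕ) (y : N), v y < 1 → v (g ^ n • y) < 1 := by
    intro n
    induction n with
    | zero => intro y hy; rwa [pow_zero, one_smul]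
    | succ n ih => intro y hy; rw [pow_succ, mul_smul]; exact ih _ (hlt y hy)
  by_cases hx : x = 0
  · rw [hx, smul_zero]
  have hgx : ∀ h : G, h • x ≠ 0 := fun h h0 => hx ((smul_eq_zero_iff_eq h).1 h0)
  have sd : ∀ (h : G) (y z : N), h • (y / z) = (h • y) / (h • z) := fun h y z =>
    map_div₀ (MulSemiringAction.toRingHom G N h) y z
  have key : ∀ y : N, v y < 1 → ∀ n, 0 < n → v (∏ i ∈ Finset.range n, g ^ i • y) < 1 := by
    intro y hy n hn
    induction n with
    | zero => exact absurd hn (lt_irrefl _)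
    | succ n ih =>
      rw [Finset.prod_range_succ, map_mul]
      by_cases h0 : n = 0
      · subst h0
        rw [Finset.range_zero, Finset.prod_empty, map_one, one_mul]
        exact hiter 0 y hy
      · exact mul_lt_one' (ih (Nat.pos_of_ne_zero h0)) (hiter n y hy)
  have hprod : ∀ n, ∏ i ∈ Finset.range n, g ^ i • ((g • x) / x) = (g ^ n • x) / x := by
    intro n
    induction n with
    | zero => rw [Finset.range_zero, Finset.prod_empty, pow_zero, one_smul, div_self hx]
    | succ n ih =>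
      rw [Finset.prod_range_succ, ih, sd, ← mul_smul, ← pow_succ]
      have := hgx (g ^ n)
      field_simp
  have hprod' : ∀ n, ∏ i ∈ Finset.range n, g ^ i • (x / (g • x)) = x / (g ^ n • x) := by
    intro n
    induction n with
    | zero => rw [Finset.range_zero, Finset.prod_empty, pow_zero, one_smul, div_self hx]
    | succ n ih =>
      rw [Finset.prod_range_succ, ih, sd, ← mul_smul, ← pow_succ]
      have := hgx (g ^ n)
      have := hgx (g ^ (n + 1))
      field_simp
  have hord := orderOf_pos g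
  have hvx : v x ≠ 0 := (Valuation.ne_zero_iff v).2 hx
  rcases lt_trichotomy (v (g • x)) (v x) with h | h | h
  · exfalso
    have h1 : v ((g • x) / x) < 1 := by rw [map_div₀]; exact (div_lt_one₀ (zero_lt_iff.2 hvx)).2 h
    have h2 := key _ h1 (orderOf g) hord
    rw [hprod, pow_orderOf_eq_one, one_smul, div_self hx, map_one] at h2
    exact lt_irrefl _ h2
  · exact h
  · exfalso
    have hvg : v (g • x) ≠ 0 := (Valuation.ne_zero_iff v).2 (hgx g)
    have h1 : v (x / (g • x)) < 1 := by rw [map_div₀]; exact (div_lt_one₀ (zero_lt_iff.2 hvg)).2 h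
    have h2 := key _ h1 (orderOf g) hord
    rw [hprod', pow_orderOf_eq_one, one_smul, div_self hx, map_one] at h2
    exact lt_irrefl _ h2

/-- the decomposition group acts transitively on the embeddings, at a nonsplit prime -/
theorem exists_stab (K L N : Type) [Field K] [NumberField K] [Field L] [NumberField L]
    [Field N] [NumberField N] [Algebra K L] [Algebra K N] [IsGalois K N] (v : Ideal (𝓞 K))
    (hv : Nonsplit K L v) (W : Ideal (𝓞 N)) [W.IsPrime]
    (hW : W.comap (algebraMap (𝓞 K) (𝓞 N)) = v) (j₁ j₂ : L →ₐ[K] N) :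
    ∃ δ : Gal(N/K), (∀ a : 𝓞 N, δ • a ∈ W ↔ a ∈ W) ∧ ∀ x : L, δ (j₂ x) = j₁ x := by
  let _ := j₁.toRingHom.toAlgebra
  have hj₁ : ∀ x : L, algebraMap L N x = j₁ x := fun _ => rfl
  have : IsScalarTower K L N := IsScalarTower.of_algebraMap_eq fun x => (j₁.commutes x).symm
  have : IsGalois L N := IsGalois.tower_top_of_isGalois K L N
  -- an automorphism with `σ ∘ j₁ = j₂`
  obtain ⟨σ, hσ⟩ : ∃ σ : Gal(N/K), ∀ x, σ (j₁ x) = j₂ x := by
    have hbij := (j₂.liftNormal N).bijective
    refine ⟨AlgEquiv.ofBijective (j₂.liftNormal N) hbij, fun x => ?_⟩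
    have h := j₂.liftNormal_commutes N x
    exact h
  have hcoe : ∀ (g : Gal(N/K)) (a : 𝓞 N), algebraMap (𝓞 N) N (g • a) = g (algebraMap (𝓞 N) N a) :=
    fun g a => rfl
  have hcoe' : ∀ (g : Gal(N/L)) (a : 𝓞 N), algebraMap (𝓞 N) N (g • a) = g (algebraMap (𝓞 N) N a) :=
    fun g a => rfl
  let W' : Ideal (𝓞 N) := σ⁻¹ • W
  have hW'mem : ∀ a, a ∈ W' ↔ σ • a ∈ W := fun a => Ideal.mem_inv_pointwise_smul_iff
  have : W'.IsPrime := ‹W.IsPrime›.smul _
  have hover : (W.under (𝓞 L)).under (𝓞 K) = v := by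
    rw [Ideal.under_under, ← hW]
  have hover' : (W'.under (𝓞 L)).under (𝓞 K) = v := by
    rw [Ideal.under_under, ← hW]
    ext a
    rw [Ideal.mem_comap, Ideal.mem_comap, hW'mem]
    have : σ • (algebraMap (𝓞 K) (𝓞 N) a) = algebraMap (𝓞 K) (𝓞 N) a := by
      apply RingOfIntegers.coe_injective
      show algebraMap (𝓞 N) N _ = algebraMap (𝓞 N) N _
      rw [hcoe, ← IsScalarTower.algebraMap_apply, IsScalarTower.algebraMap_apply (𝓞 K) K N,
        σ.commutes]
    rw [this]
  have hunder : W.under (𝓞 L) = W'.under (𝓞 L) :=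
    hv _ _ inferInstance inferInstance ⟨hover.symm⟩ ⟨hover'.symm⟩
  obtain ⟨τ, hτ⟩ := Algebra.IsInvariant.exists_smul_of_under_eq (𝓞 L) (𝓞 N) Gal(N/L) W W' hunder
  -- `τ⁻¹ ∘ σ⁻¹` stabilises `W`
  have hmem : ∀ a, σ • a ∈ W ↔ τ⁻¹ • a ∈ W := by
    intro a
    rw [← hW'mem, hτ, Ideal.mem_pointwise_smul_iff_inv_smul_mem]
  refine ⟨(τ⁻¹).restrictScalars K * σ⁻¹, ?_, ?_⟩
  · intro a
    have h1 := hmem (σ⁻¹ • a)
    rw [smul_inv_smul] at h1
    rw [h1]
    exact Iff.rfl
  · intro x
    show τ⁻¹ (σ⁻¹ (j₂ x)) = j₁ x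
    have h1 : σ⁻¹ (j₂ x) = j₁ x := by
      rw [← hσ]
      exact σ.symm_apply_apply _
    rw [h1, ← hj₁]
    exact (τ⁻¹).commutes x

/-- an invariant ultrametric distance on a transitive set of prime cardinality is constant -/
theorem dist_const {G X Γ : Type*} [Group G] [MulAction G X] [MulAction.IsPretransitive G X]
    (hp : (Nat.card X).Prime) [LinearOrder Γ] (D : X → X → Γ) (hsymm : ∀ x y, D x y = D y x)
    (hultra : ∀ x y z, D x z ≤ max (D x y) (D y z)) (hinv : ∀ (g : G) x y, D (g • x) (g • y) = D x y)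
    (hself : ∀ x y, D x x ≤ D x y) (a b c d : X) (hcd : c ≠ d) : D a b ≤ D c d := by
  by_contra hlt
  push Not at hlt
  have := MulAction.IsPreprimitive.of_prime_card (G := G) hp
  have hblock : MulAction.IsBlock G {x | D c x < D a b} := by
    rw [MulAction.isBlock_iff_smul_eq_of_mem]
    intro g x hx hgx
    have hx' : D c x < D a b := hx
    have hgx' : D c (g • x) < D a b := hgx
    have h1 : D c (g • c) < D a b := by
      refine (hultra c (g • x) (g • c)).trans_lt (max_lt hgx' ?_)
      rw [hsymm, hinv]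
      exact hx'
    have h2 : ∀ y, D c (g • y) < D a b ↔ D c y < D a b := by
      intro y
      constructor
      · intro h
        rw [← hinv g]
        refine (hultra (g • c) c (g • y)).trans_lt (max_lt ?_ h)
        rwa [hsymm]
      · intro h
        rw [← hinv g] at h
        exact (hultra c (g • c) (g • y)).trans_lt (max_lt h1 h)
    ext y
    rw [Set.mem_smul_set_iff_inv_smul_mem]
    show D c (g⁻¹ • y) < D a b ↔ D c y < D a b
    rw [← h2, smul_inv_smul]
  rcases MulAction.IsPreprimitive.isTrivialBlock_of_isBlock hblock with h | h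
  · exact hcd (h (lt_of_le_of_lt (hself c d) hlt : D c c < D a b) (hlt : D c d < D a b))
  · have ha : a ∈ {x | D c x < D a b} := h ▸ Set.mem_univ a
    have hb : b ∈ {x | D c x < D a b} := h ▸ Set.mem_univ b
    have ha' : D c a < D a b := ha
    have hb' : D c b < D a b := hb
    have := (hultra a c b).trans_lt (max_lt (by rwa [hsymm]) hb')
    exact lt_irrefl _ this

theorem trans : TransStmt := by
  classical
  intro K L E _ _ _ _ _ _ _ _ hprime v hv hns w hw θ hθ hsplit a b c d ha hb hc hd hab hcd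
  have hθint : IsIntegral K θ := IsIntegral.of_finite K θ
  have htop : IntermediateField.adjoin K {θ} = ⊤ := by
    rcases (IntermediateField.isSimpleOrder_of_finrank_prime K L hprime).eq_bot_or_eq_top
      (IntermediateField.adjoin K {θ}) with h | h
    · exact absurd (IntermediateField.mem_bot.1 (h ▸ IntermediateField.mem_adjoin_simple_self K θ)) hθ
    · exact h
  have hdeg : (minpoly K θ).natDegree = Module.finrank K L := by
    rw [← IntermediateField.adjoin.finrank hθint, htop, IntermediateField.finrank_top']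
  have hirr := minpoly.irreducible hθint
  have hsep : (minpoly K θ).Separable := hirr.separable
  have hne : minpoly K θ ≠ 0 := minpoly.ne_zero hθint
  let N : IntermediateField K E := IntermediateField.adjoin K ((minpoly K θ).rootSet E)
  have hsf : (minpoly K θ).IsSplittingField K N :=
    IntermediateField.adjoin_rootSet_isSplittingField hsplit
  have hgal : IsGalois K N := IsGalois.of_separable_splitting_field hsep
  have hnf : NumberField N := inferInstance
  -- the valuation on `N`
  let u : Valuation N (WithZero (Multiplicative ℤ)) := (w.valuation E).comap (algebraMap N E)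
  let W : Ideal (𝓞 N) := w.asIdeal.comap (algebraMap (𝓞 N) (𝓞 E))
  have hWp : W.IsPrime := Ideal.comap_isPrime _ _
  have hu : ∀ z : 𝓞 N, u (algebraMap (𝓞 N) N z) =
      w.valuation E (algebraMap (𝓞 E) E (algebraMap (𝓞 N) (𝓞 E) z)) := fun z => rfl
  have hu1 : ∀ z : 𝓞 N, u (algebraMap (𝓞 N) N z) ≤ 1 := fun z => by
    rw [hu]
    exact w.valuation_le_one _
  have hu2 : ∀ z : 𝓞 N, u (algebraMap (𝓞 N) N z) < 1 ↔ z ∈ W := fun z => by
    rw [hu, w.valuation_lt_one_iff_mem]
    rfl
  have hWv : W.comap (algebraMap (𝓞 K) (𝓞 N)) = v := by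
    rw [hw.over]
    rfl
  -- the roots
  let X := (minpoly K θ).rootSet N
  have hroot : ∀ (g : Gal(N/K)) (x : X), g x.1 ∈ (minpoly K θ).rootSet N := by
    intro g x
    have hx := x.2
    rw [Polynomial.mem_rootSet] at hx ⊢
    refine ⟨hx.1, ?_⟩
    have := congrArg g hx.2
    rw [map_zero] at this
    rw [← this]
    exact Polynomial.aeval_algHom_apply g.toAlgHom x.1 (minpoly K θ)
  let D : Subgroup Gal(N/K) := MulAction.stabilizer Gal(N/K) W
  have hD : ∀ g : Gal(N/K), g ∈ D ↔ ∀ z : 𝓞 N, g • z ∈ W ↔ z ∈ W := by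
    intro g
    rw [MulAction.mem_stabilizer_iff]
    constructor
    · intro h z
      conv_lhs => rw [← h]
      exact Ideal.smul_mem_pointwise_smul_iff
    · intro h
      ext z
      rw [Ideal.mem_pointwise_smul_iff_inv_smul_mem, ← h, smul_inv_smul]
  let _ : MulAction D X :=
    { smul := fun g x => ⟨g.1 x.1, hroot g.1 x⟩
      one_smul := fun x => rfl
      mul_smul := fun g h x => rfl }
  have hsmul : ∀ (g : D) (x : X), ((g • x : X) : N) = g.1 x.1 := fun _ _ => rfl
  have hemb : ∀ x : X, ∃ j : L →ₐ[K] N, j θ = x.1 := by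
    intro x
    have hx : x.1 ∈ (minpoly K θ).aroots N := Polynomial.mem_aroots.2
      ((Polynomial.mem_rootSet).1 x.2)
    let e : L →ₐ[K] IntermediateField.adjoin K {θ} :=
      (IntermediateField.equivOfEq htop.symm).toAlgHom.comp
        (IntermediateField.topEquiv (F := K) (E := L)).symm.toAlgHom
    have he : e θ = IntermediateField.AdjoinSimple.gen K θ := Subtype.ext rfl
    refine ⟨((IntermediateField.algHomAdjoinIntegralEquiv K hθint).symm ⟨x.1, hx⟩).comp e, ?_⟩
    rw [AlgHom.comp_apply, he]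
    exact IntermediateField.algHomAdjoinIntegralEquiv_symm_apply_gen K hθint ⟨x.1, hx⟩
  have htr : MulAction.IsPretransitive D X := by
    refine ⟨fun x y => ?_⟩
    obtain ⟨j₁, hj₁⟩ := hemb y
    obtain ⟨j₂, hj₂⟩ := hemb x
    obtain ⟨δ, hδ, hδ'⟩ := exists_stab K L N v hns W hWv j₁ j₂
    refine ⟨⟨δ, (hD δ).2 hδ⟩, Subtype.ext ?_⟩
    rw [hsmul]
    show δ x.1 = y.1
    rw [← hj₂, hδ', hj₁]
  have hcard : Nat.card X = Module.finrank K L := by
    rw [← hdeg, Nat.card_eq_fintype_card]
    exact Polynomial.card_rootSet_eq_natDegree hsep hsf.splits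
  have hXN : ∀ r : E, Polynomial.aeval r (minpoly K θ) = 0 → ∃ x : X, algebraMap N E x.1 = r := by
    intro r hr
    have hrN : r ∈ N := IntermediateField.subset_adjoin K _ ((Polynomial.mem_rootSet).2 ⟨hne, hr⟩)
    refine ⟨⟨⟨r, hrN⟩, (Polynomial.mem_rootSet).2 ⟨hne, ?_⟩⟩, rfl⟩
    apply (algebraMap N E).injective
    rw [map_zero, ← hr, ← Polynomial.aeval_algebraMap_apply]
    rfl
  obtain ⟨xa, hxa⟩ := hXN a ha
  obtain ⟨xb, hxb⟩ := hXN b hb
  obtain ⟨xc, hxc⟩ := hXN c hc
  obtain ⟨xd, hxd⟩ := hXN d hd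
  have key : ∀ x y z t : X, z ≠ t → u (x.1 - y.1) ≤ u (z.1 - t.1) := by
    intro x y z t hzt
    refine dist_const (G := D) (by rw [hcard]; exact hprime) (fun x y : X => u (x.1 - y.1))
      (fun x y => Valuation.map_sub_swap _ _ _) ?_ ?_ ?_ x y z t hzt
    · intro x y z
      have : x.1 - z.1 = (x.1 - y.1) + (y.1 - z.1) := by ring
      show u (x.1 - z.1) ≤ _
      rw [this]
      exact u.map_add _ _
    · intro g x y
      show u ((g • x : X).1 - (g • y : X).1) = _
      rw [hsmul, hsmul, ← map_sub]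
      exact val_smul (G := Gal(N/K)) u W hWp.ne_top hu1 hu2 (fun g z => rfl) g.1 ((hD g.1).1 g.2) _
    · intro x y
      show u (x.1 - x.1) ≤ _
      rw [sub_self, map_zero]
      exact zero_le
  have e1 : w.valuation E (a - b) = u (xa.1 - xb.1) := by
    rw [← hxa, ← hxb, ← map_sub]
    rfl
  have e2 : w.valuation E (c - d) = u (xc.1 - xd.1) := by
    rw [← hxc, ← hxd, ← map_sub]
    rfl
  rw [e1, e2]
  refine le_antisymm (key _ _ _ _ ?_) (key _ _ _ _ ?_)
  · rintro rfl
    exact hcd (hxc.symm.trans hxd)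
  · rintro rfl
    exact hab (hxa.symm.trans hxb)

end H76UBT
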